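import Pool.Agent.H380.AG.Stm

/-!
# The mean value of the Gegenbauer polynomials
-/

set_option autoImplicit false

open MeasureTheory Metric Set Filter Topology
open scoped ENNReal RealInnerProductSpace

namespace Pool.Agent.H282.AG

open Pool.Agent.W778.AG Pool.Agent.H380.AG

theorem inner_sum {n : ℕ} (x y : En n) : ⟪x, y⟫ = ∑ i, x i * y i := by
  rw [PiLp.inner_apply]
  refine Finset.sum_congr rfl fun i _ => ?_
  simp [mul_comm]

theorem cd_eq {n : ℕ} (u v b : En n) :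
    cd u (fun i => (v i : ℂ) + Complex.I * (b i : ℂ)) =
      ((⟪u, v⟫ : ℝ) + Complex.I * (⟪u, b⟫ : ℝ) : ℂ) := by
  unfold cd
  rw [inner_sum, inner_sum]
  push_cast
  rw [Finset.mul_sum, ← Finset.sum_add_distrib]
  refine Finset.sum_congr rfl fun i _ => ?_
  ring

theorem qf_eq {n : ℕ} (v b : En n) :
    qf (fun i => (v i : ℂ) + Complex.I * (b i : ℂ)) =
      ((‖v‖ ^ 2 - ‖b‖ ^ 2 : ℝ) : ℂ) + 2 * Complex.I * ((⟪v, b⟫ : ℝ) : ℂ) := by
  unfold qf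
  rw [← real_inner_self_eq_norm_sq, ← real_inner_self_eq_norm_sq, inner_sum, inner_sum, inner_sum]
  push_cast
  rw [Finset.mul_sum, ← Finset.sum_sub_distrib, ← Finset.sum_add_distrib]
  refine Finset.sum_congr rfl fun i _ => ?_
  linear_combination ((b i : ℂ) ^ 2) * Complex.I_sq

theorem sph_ae {n : ℕ} {μ : Measure (En n)} (h : Sph μ) : ∀ᵐ u ∂μ, ‖u‖ = 1 := by
  have h1 : μ {u | ¬ ‖u‖ = 1} = 0 := by
    refine measure_mono_null ?_ h.2
    intro u hu hs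
    exact hu (by simpa using hs)
  exact h1

theorem t_ORTH (h1 : S_PERP) (h2 : S_LV) (h3 : S_CM) : S_ORTH := by
  intro n hn σ hσ k hk v hv
  obtain ⟨τ, hτ⟩ := h1 n hn v hv
  haveI := hσ.1.1
  haveI := hτ.1.1
  have aeσ := sph_ae hσ.1
  have aeτ := sph_ae hτ.1
  have aeo : ∀ᵐ b ∂τ, ⟪b, v⟫ = 0 := hτ.2.1
  have hcont : Continuous (Function.uncurry fun u b : En n =>
      ((⟪u, v⟫ : ℝ) + Complex.I * (⟪u, b⟫ : ℝ) : ℂ) ^ k) := by
    unfold Function.uncurry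
    fun_prop
  have hint : Integrable (Function.uncurry fun u b : En n =>
      ((⟪u, v⟫ : ℝ) + Complex.I * (⟪u, b⟫ : ℝ) : ℂ) ^ k) (σ.prod τ) := by
    refine Integrable.of_bound hcont.aestronglyMeasurable (2 ^ k) ?_
    have e1 : ∀ᵐ p ∂(σ.prod τ), ‖p.1‖ = 1 :=
      Measure.quasiMeasurePreserving_fst.ae aeσ
    have e2 : ∀ᵐ p ∂(σ.prod τ), ‖p.2‖ = 1 :=
      Measure.quasiMeasurePreserving_snd.ae aeτ
    filter_upwards [e1, e2] with p hp1 hp2
    show ‖((⟪p.1, v⟫ : ℝ) + Complex.I * (⟪p.1, p.2⟫ : ℝ) : ℂ) ^ k‖ ≤ 2 ^ k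
    rw [norm_pow]
    refine pow_le_pow_left₀ (norm_nonneg _) ?_ k
    refine (norm_add_le _ _).trans ?_
    rw [norm_mul, Complex.norm_I, one_mul, Complex.norm_real, Complex.norm_real]
    have a1 := norm_inner_le_norm (𝕜 := ℝ) p.1 v
    have a2 := norm_inner_le_norm (𝕜 := ℝ) p.1 p.2
    rw [hp1, hv] at a1
    rw [hp1, hp2] at a2
    linarith
  have key : ((∫ u, Pg n k ⟪v, u⟫ ∂σ : ℝ) : ℂ) = 0 := by
    rw [← integral_complex_ofReal]
    have e1 : ∫ u, ((Pg n k ⟪v, u⟫ : ℝ) : ℂ) ∂σ =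
        ∫ u, ∫ b, ((⟪u, v⟫ : ℝ) + Complex.I * (⟪u, b⟫ : ℝ) : ℂ) ^ k ∂τ ∂σ := by
      refine integral_congr_ae ?_
      filter_upwards [aeσ] with u hu
      rw [real_inner_comm]
      exact h2 n hn v τ hv hτ k u hu
    rw [e1, integral_integral_swap hint]
    have e2 : ∀ᵐ b ∂τ, ∫ u, ((⟪u, v⟫ : ℝ) + Complex.I * (⟪u, b⟫ : ℝ) : ℂ) ^ k ∂σ = 0 := by
      filter_upwards [aeτ, aeo] with b hb hbv
      have hq : qf (fun i => (v i : ℂ) + Complex.I * (b i : ℂ)) = 0 := by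
        rw [qf_eq, hv, hb, real_inner_comm, hbv]
        simp
      have e3 : ∀ u : En n, ((⟪u, v⟫ : ℝ) + Complex.I * (⟪u, b⟫ : ℝ) : ℂ) ^ k =
          cd u (fun i => (v i : ℂ) + Complex.I * (b i : ℂ)) ^ k := fun u => by rw [cd_eq]
      rw [integral_congr_ae (Eventually.of_forall e3)]
      rcases Nat.even_or_odd' k with ⟨j, hj | hj⟩
      · rw [hj, (h3 n hn σ hσ _ j).1, hq, zero_pow (by omega), mul_zero]
      · rw [hj, (h3 n hn σ hσ _ j).2]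
    rw [integral_congr_ae e2]
    simp
  exact_mod_cast key

end Pool.Agent.H282.AG
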